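import Pool.Agent.X261.SE.Fin
import Pool.Agent.TH943.CY.Cnt

/-!
# Compositions of the polynomials `x ^ r + c`
-/

set_option autoImplicit false
set_option linter.unusedSectionVars false

open Polynomial

namespace Pool.Agent.X261.SE

open Pool.Agent.W313.Hyp
open Pool.Agent.TH639.SE (primes mem_primes)

section defs

variable {k : Type} [Field k]

/-- The composition of the polynomials `x ^ r + c`. -/
noncomputable def composite : List (ℕ × k) → k[X]
  | [] => X
  | (r, c) :: s => (X ^ r + C c).comp (composite s)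

/-- The critical values. -/
noncomputable def crit : List (ℕ × k) → List (ℕ × k)
  | [] => []
  | (r, c) :: s => (r, c) :: (crit s).map fun x => (x.1, x.2 ^ r + c)

/-- No value at a critical value is an `r`-th power. -/
def Good (s : List (ℕ × k)) (P : k[X]) : Prop := ∀ x ∈ crit s, ∀ v : k, P.eval x.2 ≠ v ^ x.1

theorem natDegree_composite (s : List (ℕ × k)) :
    (composite s).natDegree = (s.map fun x => x.1).prod := by
  induction s with
  | nil => simp [composite]
  | cons x s ih =>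
    obtain ⟨r, c⟩ := x
    show ((X ^ r + C c).comp (composite s)).natDegree = _
    rw [natDegree_comp, ih, natDegree_X_pow_add_C, List.map_cons, List.prod_cons]

theorem mem_crit {s : List (ℕ × k)} {x : ℕ × k} (hx : x ∈ crit s) : ∃ y ∈ s, y.1 = x.1 := by
  induction s generalizing x with
  | nil => simp [crit] at hx
  | cons y s ih =>
    obtain ⟨r, c⟩ := y
    have hx' : x ∈ (r, c) :: (crit s).map fun x => (x.1, x.2 ^ r + c) := hx
    rcases List.mem_cons.1 hx' with rfl | h
    · exact ⟨_, List.mem_cons_self, rfl⟩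
    · obtain ⟨z, hz, rfl⟩ := List.mem_map.1 h
      obtain ⟨y, hy, h1⟩ := ih hz
      exact ⟨y, List.mem_cons_of_mem _ hy, h1⟩

theorem crit_map (s : List (ℕ × k)) (g : ℕ → ℚ) :
    ((crit s).map fun x => g x.1) = s.map fun x => g x.1 := by
  induction s with
  | nil => rfl
  | cons y s ih =>
    obtain ⟨r, c⟩ := y
    show (((r, c) :: (crit s).map fun x => (x.1, x.2 ^ r + c)).map fun x => g x.1) = _
    rw [List.map_cons, List.map_cons, List.map_map, ← ih]
    rfl

end defs

section irr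

variable {k : Type} [Field k] [Finite k]

theorem stage {r : ℕ} (hr : r.Prime) (ho : Odd r) (P : MI k) (c : k)
    (h : ∀ v, P.1.eval c ≠ v ^ r) : Irreducible (P.1.comp (X ^ r + C c)) := by
  have hirr : Irreducible (P.1.comp (X + C c)) := by
    have h1 := (MulEquiv.irreducible_iff (algEquivAevalXAddC c) (x := P.1)).2 P.2.2
    have h2 : algEquivAevalXAddC c P.1 = P.1.comp (X + C c) := by
      show aeval (X + C c) P.1 = _
      rfl
    rwa [h2] at h1
  have hmon : (P.1.comp (X + C c)).Monic := P.2.1.comp_X_add_C c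
  let Q : MI k := ⟨P.1.comp (X + C c), hmon, hirr⟩
  have h0 : Q.1.coeff 0 = P.1.eval c := by
    show (P.1.comp (X + C c)).coeff 0 = _
    rw [coeff_zero_eq_eval_zero, eval_comp]
    simp
  have h3 : Irreducible (Q.1.comp (X ^ r)) := by
    refine Pool.Agent.TH943.CY.irr_comp hr ho Q ?_ ?_
    · rw [h0]
      intro h1
      exact h 0 (by rw [h1, zero_pow hr.ne_zero])
    · rintro ⟨v, _, hv⟩
      rw [h0] at hv
      exact h v hv
  have h4 : Q.1.comp (X ^ r) = P.1.comp (X ^ r + C c) := by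
    show (P.1.comp (X + C c)).comp (X ^ r) = _
    rw [comp_assoc]
    simp
  rwa [h4] at h3

theorem irr_composite (s : List (ℕ × k)) (hs : ∀ x ∈ s, x.1.Prime ∧ Odd x.1) (P : MI k)
    (h : Good s P.1) : Irreducible (P.1.comp (composite s)) := by
  induction s generalizing P with
  | nil =>
    show Irreducible (P.1.comp X)
    rw [comp_X]
    exact P.2.2
  | cons x s ih =>
    obtain ⟨r, c⟩ := x
    obtain ⟨hr, ho⟩ := hs (r, c) List.mem_cons_self
    have h1 : ∀ v, P.1.eval c ≠ v ^ r := h (r, c) (by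
      show (r, c) ∈ (r, c) :: (crit s).map fun x => (x.1, x.2 ^ r + c)
      exact List.mem_cons_self)
    have h2 := stage hr ho P c h1
    have hmon : (P.1.comp (X ^ r + C c)).Monic :=
      P.2.1.comp (monic_X_pow_add_C c hr.ne_zero) (by
        rw [natDegree_X_pow_add_C]
        exact hr.ne_zero)
    have h3 := ih (fun y hy => hs y (List.mem_cons_of_mem _ hy)) ⟨_, hmon, h2⟩ (by
      intro y hy v
      show (P.1.comp (X ^ r + C c)).eval y.2 ≠ _
      rw [eval_comp]
      have h4 := h (y.1, y.2 ^ r + c) (by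
        show (y.1, y.2 ^ r + c) ∈ (r, c) :: (crit s).map fun x => (x.1, x.2 ^ r + c)
        exact List.mem_cons_of_mem _ (List.mem_map.2 ⟨y, hy, rfl⟩)) v
      simpa using h4)
    show Irreducible (P.1.comp ((X ^ r + C c).comp (composite s)))
    rw [← comp_assoc]
    exact h3

end irr

section count

variable {k : Type} [Field k] [Finite k]

theorem ncard_list {α L : Type} [Finite L] (l : List α) (B : α → Set L) (c : α → ℚ)
    (h : ∀ x ∈ l, ((B x).ncard : ℚ) ≤ c x) :
    (({u | ∃ x ∈ l, u ∈ B x} : Set L).ncard : ℚ) ≤ (l.map c).sum := by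
  induction l with
  | nil => simp
  | cons a l ih =>
    have h1 : ({u | ∃ x ∈ a :: l, u ∈ B x} : Set L) = B a ∪ {u | ∃ x ∈ l, u ∈ B x} := by
      ext u
      simp
    rw [h1, List.map_cons, List.sum_cons]
    have h2 := Set.ncard_union_le (B a) {u | ∃ x ∈ l, u ∈ B x}
    have h3 : (((B a ∪ {u | ∃ x ∈ l, u ∈ B x}) : Set L).ncard : ℚ) ≤
        ((B a).ncard : ℚ) + (({u | ∃ x ∈ l, u ∈ B x} : Set L).ncard : ℚ) := by exact_mod_cast h2
    have h4 := h a List.mem_cons_self
    have h5 := ih fun x hx => h x (List.mem_cons_of_mem _ hx)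
    linarith

theorem count_good (s : List (ℕ × k))
    (hs : ∀ x ∈ s, x.1.Prime ∧ Odd x.1 ∧ x.1 ∣ Nat.card k - 1) {N : ℕ} (hN : 0 < N) :
    (Nat.card k : ℚ) ^ N * (1 - (s.map fun x => (1 : ℚ) / x.1).sum) -
      ∑ d ∈ N.properDivisors, (Nat.card k : ℚ) ^ d - s.length ≤
      N * ({P : {P : k[X] // P.Monic ∧ Irreducible P} | P.1.natDegree = N ∧
        Good s P.1}.ncard : ℚ) := by
  classical
  obtain ⟨p, hp⟩ := CharP.exists k
  have : Fact (Nat.Prime p) := ⟨CharP.char_is_prime k p⟩
  have : NeZero N := ⟨hN.ne'⟩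
  let L := FiniteField.Extension k p N
  have hfin : Module.finrank k L = N := FiniteField.finrank_extension k p N
  have hLk : Module.Finite k L := Module.Finite.of_finite
  have hcard : Nat.card L = Nat.card k ^ N := FiniteField.natCard_extension k p N
  have hc := Pool.Agent.TH943.PT.count hfin (fun P => Good s P)
  have hsm := Pool.Agent.TH943.PT.ncard_small (k := k) (L := L) hfin
  set Md : ℕ → Set L := fun r => {u : L | u ≠ 0 ∧ ∃ c : k, c ≠ 0 ∧ Algebra.norm k u = c ^ r}
    with hMd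
  set B : ℕ × k → Set L := fun x => insert (algebraMap k L x.2)
    ((fun u => u + algebraMap k L x.2) '' Md x.1) with hB
  set U : Set L := {u : L | (minpoly k u).natDegree = N ∧ Good s (minpoly k u)} with hU
  set S0 : Set L := {u : L | (minpoly k u).natDegree ≠ N} with hS0
  have hcov : (Uᶜ : Set L) ⊆ S0 ∪ {u | ∃ x ∈ crit s, u ∈ B x} := by
    intro u hu
    by_cases hd : (minpoly k u).natDegree = N
    · right
      have h1 : ¬ Good s (minpoly k u) := fun h => hu ⟨hd, h⟩
      unfold Good at h1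
      push Not at h1
      obtain ⟨x, hx, v, hv⟩ := h1
      refine ⟨x, hx, ?_⟩
      obtain ⟨y, hy, hyx⟩ := mem_crit hx
      obtain ⟨hr, ho, _⟩ := hs y hy
      rw [hyx] at hr ho
      have h2 : minpoly k (u - algebraMap k L x.2) = (minpoly k u).comp (X + C x.2) :=
        minpoly.sub_algebraMap u x.2
      have h3 : (minpoly k (u - algebraMap k L x.2)).natDegree = N := by
        rw [h2, natDegree_comp, natDegree_X_add_C, mul_one, hd]
      have h4 := Pool.Agent.TH943.CY.norm_eq hfin h3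
      have h5 : (minpoly k (u - algebraMap k L x.2)).coeff 0 = v ^ x.1 := by
        rw [h2, coeff_zero_eq_eval_zero, eval_comp]
        simpa using hv
      rw [h5, ← Pool.Agent.TH943.CY.neg_one_pow_pow ho N, ← mul_pow] at h4
      by_cases hu0 : u = algebraMap k L x.2
      · rw [hB, hu0]
        exact Set.mem_insert _ _
      · rw [hB]
        refine Set.mem_insert_of_mem _ ⟨u - algebraMap k L x.2, ⟨sub_ne_zero.2 hu0, _, ?_, h4⟩,
          by simp⟩
        intro h6
        rw [h6, zero_pow hr.ne_zero, Algebra.norm_eq_zero_iff] at h4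
        exact sub_ne_zero.2 hu0 h4
    · exact Or.inl hd
  have hBc : ∀ x ∈ crit s, ((B x).ncard : ℚ) ≤ 1 + (Nat.card k : ℚ) ^ N * ((1 : ℚ) / x.1) := by
    intro x hx
    obtain ⟨y, hy, hyx⟩ := mem_crit hx
    obtain ⟨hr, ho, hd⟩ := hs y hy
    rw [hyx] at hr hd
    have h1 : (B x).ncard ≤ (Md x.1).ncard + 1 := by
      rw [hB]
      refine (Set.ncard_insert_le _ _).trans ?_
      exact Nat.add_le_add_right (Set.ncard_image_le (Set.toFinite _)) 1
    have h2 : x.1 * (Md x.1).ncard = Nat.card k ^ N - 1 := by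
      rw [hMd, ← hcard]
      exact Pool.Agent.TH943.CY.card_norm hd
    have h3 : x.1 * (Md x.1).ncard ≤ Nat.card k ^ N := by omega
    have h4 : (x.1 : ℚ) * ((Md x.1).ncard : ℚ) ≤ (Nat.card k : ℚ) ^ N := by exact_mod_cast h3
    have h5 : (0 : ℚ) < x.1 := by exact_mod_cast hr.pos
    have h6 : ((B x).ncard : ℚ) ≤ (Md x.1).ncard + 1 := by exact_mod_cast h1
    have h7 : ((Md x.1).ncard : ℚ) ≤ (Nat.card k : ℚ) ^ N * ((1 : ℚ) / x.1) := by
      rw [mul_one_div, le_div_iff₀ h5]
      linarith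
    linarith
  have h1 := ncard_list (crit s) B (fun x => 1 + (Nat.card k : ℚ) ^ N * ((1 : ℚ) / x.1)) hBc
  have h2 : ((crit s).map fun x => 1 + (Nat.card k : ℚ) ^ N * ((1 : ℚ) / x.1)).sum =
      s.length + (Nat.card k : ℚ) ^ N * (s.map fun x => (1 : ℚ) / x.1).sum := by
    rw [crit_map s (fun r => 1 + (Nat.card k : ℚ) ^ N * ((1 : ℚ) / r)), List.sum_map_add,
      List.sum_map_mul_left]
    simp
  rw [h2] at h1
  have h3 := Set.ncard_le_ncard hcov (Set.toFinite _)
  have h4 := Set.ncard_union_le S0 {u | ∃ x ∈ crit s, u ∈ B x}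
  have h5 := Set.ncard_add_ncard_compl U
  rw [hcard] at h5
  have e1 : (U.ncard : ℚ) + (Uᶜ.ncard : ℚ) = (Nat.card k : ℚ) ^ N := by exact_mod_cast h5
  have e2 : (Uᶜ.ncard : ℚ) ≤ (S0.ncard : ℚ) +
      (({u | ∃ x ∈ crit s, u ∈ B x} : Set L).ncard : ℚ) := by exact_mod_cast h3.trans h4
  have e3 : (S0.ncard : ℚ) ≤ ∑ d ∈ N.properDivisors, (Nat.card k : ℚ) ^ d := by
    exact_mod_cast hsm
  have e4 : (N : ℚ) * ({P : {P : k[X] // P.Monic ∧ Irreducible P} | P.1.natDegree = N ∧
        Good s P.1}.ncard : ℚ) = (U.ncard : ℚ) := by exact_mod_cast hc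
  rw [e4]
  linarith

end count

section bound

variable {k : Type} [Field k] [Finite k] {ℓ : ℕ} [hp : Fact ℓ.Prime]

theorem bnd_inert' (N M : ℕ) {f D : Polynomial k} (hD : D ≠ 0) (hℓ : ¬ ℓ ∣ f.natDegree)
    (hf : M = 1 ∨ Irreducible f) (hDf : ∀ P, Irreducible P → P ∣ D → Irreducible (P.comp f)) :
    bnd ℓ N M f D = 0 := by
  have hn : f.natDegree ≠ 0 := fun h0 => hℓ (h0 ▸ dvd_zero ℓ)
  unfold bnd
  have h1 : ∑ P ∈ primes D, (∑ R ∈ primes (P.comp f), (ℓ : ℤ) ^ padicValNat ℓ R.natDegree -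
      (ℓ : ℤ) ^ padicValNat ℓ P.natDegree) = 0 := by
    refine Finset.sum_eq_zero fun P hP => ?_
    obtain ⟨_, h2, h3⟩ := (mem_primes hD P).1 hP
    rw [primes_assoc (hDf P h2 h3), Polynomial.natDegree_comp,
      padicValNat.mul h2.natDegree_pos.ne' hn, padicValNat.eq_zero_of_not_dvd hℓ, add_zero,
      sub_self]
  rw [h1]
  rcases hf with rfl | hf
  · simp
  · rw [primes_assoc hf, padicValNat.eq_zero_of_not_dvd hℓ, pow_zero, sub_self]
    ring

end bound

end Pool.Agent.X261.SE
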