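import Pool.Agent.X261.SE.Glob

/-!
# The bound for the order of vanishing, and the change of the field of constants
-/

set_option autoImplicit false
set_option linter.unusedSectionVars false

open PowerSeries

namespace Pool.Agent.X261.SE

open Pool.Agent.W313.Hyp Pool.Agent.W343.BSD
open Pool.Agent.TH943.HJ (RF finRF comp_ne)
open Pool.Agent.TH639.SE (red IsMu isMu_facs primes mem_primes sum_primes)

section single

variable {ℓ : ℕ} [hp : Fact ℓ.Prime]

theorem single_bound {q : ℤ} (hq : ((q : ℤ) : ZMod ℓ) = 1) {L : PowerSeries ℤ} {m : ℕ}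
    {G : Polynomial ℤ}
    (hG : L = (((1 - Polynomial.C q * Polynomial.X) ^ m * G : Polynomial ℤ) : PowerSeries ℤ))
    {A B : PowerSeries (ZMod ℓ)} {a b n : ℕ} (hA : IsMu A a) (hB : IsMu B b)
    (h : red ℓ L * A ^ n = B ^ n) : m + n * a ≤ n * b := by
  set φ := Int.castRingHom (ZMod ℓ) with hφ
  set P : Polynomial ℤ := (1 - Polynomial.C q * Polynomial.X) ^ m * G with hP
  have hPred : P.map φ = (1 - Polynomial.X) ^ m * G.map φ := by
    rw [hP, Polynomial.map_mul, Polynomial.map_pow, Polynomial.map_sub, Polynomial.map_one,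
      Polynomial.map_mul, Polynomial.map_C, Polynomial.map_X]
    have h3 : φ q = 1 := by rw [hφ, eq_intCast, hq]
    rw [h3, Polynomial.C_1, one_mul]
  have hredP : red ℓ L = ((P.map φ : Polynomial (ZMod ℓ)) : PowerSeries (ZMod ℓ)) := by
    rw [hG]
    ext n
    rw [PowerSeries.coeff_map, Polynomial.coeff_coe, Polynomial.coeff_coe, Polynomial.coeff_map]
  obtain ⟨A1, hA1, hA0, hAm⟩ := hA.pow n
  obtain ⟨B1, hB1, hB0, hBm⟩ := hB.pow n
  rw [← hA1, ← hB1, hredP, ← Polynomial.coe_mul] at h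
  have hpoly := Polynomial.coe_injective (ZMod ℓ) h
  have hP0 : P.map φ ≠ 0 := by
    intro h
    rw [h, zero_mul] at hpoly
    exact hB0 hpoly.symm
  have hrm := congrArg (Polynomial.rootMultiplicity 1) hpoly
  rw [rm_mul 1 hP0 hA0, hAm, hBm] at hrm
  rw [hPred] at hP0 hrm
  have hX : (1 - Polynomial.X : Polynomial (ZMod ℓ)) ≠ 0 := by
    have h1 := Pool.Agent.W309.T3.binom_ne (F := ZMod ℓ) (c := 1) one_pos
    rwa [Polynomial.C_1, one_mul, pow_one] at h1
  have hXm : (1 - Polynomial.X : Polynomial (ZMod ℓ)).rootMultiplicity 1 = 1 := by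
    have h2 := Pool.Agent.W309.T3.rm_binom ℓ (c := 1) (x := 1) one_ne_zero one_pos
    rwa [Polynomial.C_1, one_mul, pow_one, if_pos (by simp), padicValNat_one_right, pow_zero] at h2
  rw [rm_mul 1 (left_ne_zero_of_mul hP0) (right_ne_zero_of_mul hP0), rm_pow 1 hX, hXm,
    mul_one] at hrm
  omega

end single

section bound

variable {k : Type} [Field k] [Finite k] {ℓ : ℕ} [hp : Fact ℓ.Prime]

theorem order_nat (hq : ℓ ∣ Nat.card k - 1) (a b : ℕ) {f D : Polynomial k} (hf : 0 < f.natDegree)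
    (hD : D ≠ 0) (hD0 : D.eval 0 ≠ 0) {m : ℕ} {G : Polynomial ℤ}
    (hG : LF (ℓ ^ a) (ℓ ^ b) f D =
      (((1 - Polynomial.C (Nat.card k : ℤ) * Polynomial.X) ^ m * G : Polynomial ℤ) :
        PowerSeries ℤ)) :
    m + (ℓ ^ a - 1) * (ℓ ^ b * ∑ P ∈ facs D, ℓ ^ padicValNat ℓ P.1.natDegree + ℓ ^ b * 1) ≤
      (ℓ ^ a - 1) * (1 + (ℓ ^ b * ∑ P ∈ facs D, ∑ R ∈ facs (P.1.comp f),
        ℓ ^ padicValNat ℓ R.1.natDegree +
        (ℓ ^ b - 1) * ∑ R ∈ facs f, ℓ ^ padicValNat ℓ R.1.natDegree)) := by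
  refine single_bound (q := (Nat.card k : ℤ)) (by rw [Int.cast_natCast]; exact card_cast hq) hG
    (((isMu_facs (facs D)).pow _).mul (IsMu.oneX.pow _))
    (IsMu.oneX.mul (((IsMu.prod _ fun P _ => isMu_facs (facs (P.1.comp f))).pow _).mul
      ((isMu_facs (facs f)).pow _))) (identity hq a b hf hD hD0)

/-- the bound -/
noncomputable def bnd (ℓ : ℕ) (N M : ℕ) (f D : Polynomial k) : ℤ :=
  ((N : ℤ) - 1) * (((M : ℤ) - 1) * (∑ R ∈ primes f, (ℓ : ℤ) ^ padicValNat ℓ R.natDegree - 1) +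
    M * ∑ P ∈ primes D, (∑ R ∈ primes (P.comp f), (ℓ : ℤ) ^ padicValNat ℓ R.natDegree -
      (ℓ : ℤ) ^ padicValNat ℓ P.natDegree))

theorem order_int (hq : ℓ ∣ Nat.card k - 1) (a b : ℕ) {f D : Polynomial k} (hf : 0 < f.natDegree)
    (hD : D ≠ 0) (hD0 : D.eval 0 ≠ 0) {m : ℕ} {G : Polynomial ℤ}
    (hG : LF (ℓ ^ a) (ℓ ^ b) f D =
      (((1 - Polynomial.C (Nat.card k : ℤ) * Polynomial.X) ^ m * G : Polynomial ℤ) :
        PowerSeries ℤ)) :
    (m : ℤ) ≤ bnd ℓ (ℓ ^ a) (ℓ ^ b) f D := by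
  have h := order_nat hq a b hf hD hD0 hG
  have hf0 : f ≠ 0 := fun h => by
    rw [h, Polynomial.natDegree_zero] at hf
    exact lt_irrefl _ hf
  have e1 : ((ℓ ^ a - 1 : ℕ) : ℤ) = (ℓ ^ a : ℕ) - 1 := by
    rw [Nat.cast_sub (Nat.one_le_pow _ _ hp.out.pos), Nat.cast_one]
  have e2 : ((ℓ ^ b - 1 : ℕ) : ℤ) = (ℓ ^ b : ℕ) - 1 := by
    rw [Nat.cast_sub (Nat.one_le_pow _ _ hp.out.pos), Nat.cast_one]
  have e3 : ∑ P ∈ facs D, (ℓ : ℤ) ^ padicValNat ℓ P.1.natDegree =
      ∑ P ∈ primes D, (ℓ : ℤ) ^ padicValNat ℓ P.natDegree :=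
    sum_primes hD (fun P => (ℓ : ℤ) ^ padicValNat ℓ P.natDegree)
  have e4 : ∑ R ∈ facs f, (ℓ : ℤ) ^ padicValNat ℓ R.1.natDegree =
      ∑ R ∈ primes f, (ℓ : ℤ) ^ padicValNat ℓ R.natDegree :=
    sum_primes hf0 (fun P => (ℓ : ℤ) ^ padicValNat ℓ P.natDegree)
  have e5 : ∑ P ∈ facs D, ∑ R ∈ facs (P.1.comp f), (ℓ : ℤ) ^ padicValNat ℓ R.1.natDegree =
      ∑ P ∈ primes D, ∑ R ∈ primes (P.comp f), (ℓ : ℤ) ^ padicValNat ℓ R.natDegree := by
    rw [← sum_primes hD (fun P => ∑ R ∈ primes (P.comp f), (ℓ : ℤ) ^ padicValNat ℓ R.natDegree)]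
    refine Finset.sum_congr rfl fun P _ => ?_
    exact sum_primes (comp_ne hf P) (fun P => (ℓ : ℤ) ^ padicValNat ℓ P.natDegree)
  have h' : ((m + (ℓ ^ a - 1) * (ℓ ^ b * ∑ P ∈ facs D, ℓ ^ padicValNat ℓ P.1.natDegree +
      ℓ ^ b * 1) : ℕ) : ℤ) ≤
      (((ℓ ^ a - 1) * (1 + (ℓ ^ b * ∑ P ∈ facs D, ∑ R ∈ facs (P.1.comp f),
        ℓ ^ padicValNat ℓ R.1.natDegree +
        (ℓ ^ b - 1) * ∑ R ∈ facs f, ℓ ^ padicValNat ℓ R.1.natDegree)) : ℕ) : ℤ) :=
    Int.ofNat_le.2 h
  rw [Nat.cast_add, Nat.cast_mul, Nat.cast_mul, Nat.cast_add, Nat.cast_add, Nat.cast_add,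
    Nat.cast_mul, Nat.cast_mul, Nat.cast_mul, Nat.cast_mul, e1, e2] at h'
  push_cast at h'
  rw [e3, e4, e5] at h'
  unfold bnd
  rw [Finset.sum_sub_distrib]
  push_cast
  linarith

end bound

section basechange

variable {k k' : Type} [Field k] [Field k'] [Finite k] [Finite k'] [Algebra k k']

theorem irr_map {f P : Polynomial k} (hf : 0 < f.natDegree) (hP : Irreducible P)
    (hPf : Irreducible (P.comp f)) (hr : (Module.finrank k k').Coprime f.natDegree)
    {P' : Polynomial k'} (hP' : Irreducible P') (hd : P' ∣ P.map (algebraMap k k')) :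
    Irreducible (P'.comp (f.map (algebraMap k k'))) := by
  have := Module.Finite.of_finite (R := k) (M := k')
  set r := Module.finrank k k' with hrd
  have hr0 : 0 < r := Module.finrank_pos
  have hcard : Nat.card k' = Nat.card k ^ r := Module.natCard_eq_pow_finrank (K := k) (V := k')
  set f' := f.map (algebraMap k k') with hf'
  have hdeg : f'.natDegree = f.natDegree := Polynomial.natDegree_map _
  set n := f.natDegree with hn
  set p := P.natDegree with hpd
  have hp0 : 0 < p := hP.natDegree_pos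
  set g := Nat.gcd r p with hg
  have hg0 : 0 < g := Nat.gcd_pos_of_pos_left _ hr0
  -- the degree of `P'`
  have h1 : P'.natDegree ∣ p / g := by
    rw [hP'.natDegree_dvd_iff_dvd_X_pow_card_pow_sub_X, hcard, ← pow_mul]
    have h2 : P ∣ Polynomial.X ^ Nat.card k ^ (r * (p / g)) - Polynomial.X := by
      rw [← hP.natDegree_dvd_iff_dvd_X_pow_card_pow_sub_X]
      refine ⟨r / g, ?_⟩
      obtain ⟨c, hc⟩ := Nat.gcd_dvd_left r p
      obtain ⟨d, hd⟩ := Nat.gcd_dvd_right r p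
      rw [← hg] at hc hd
      rw [← hpd]
      have e1 : r / g = c := Nat.div_eq_of_eq_mul_right hg0 hc
      have e2 : p / g = d := Nat.div_eq_of_eq_mul_right hg0 hd
      rw [e1, e2]
      conv_lhs => rw [hc]
      conv_rhs => rw [hd]
      ring
    have h3 := Polynomial.map_dvd (algebraMap k k') h2
    rw [Polynomial.map_sub, Polynomial.map_pow, Polynomial.map_X] at h3
    exact hd.trans h3
  -- an irreducible factor
  have hnu : ¬ IsUnit (P'.comp f') := by
    intro h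
    have h2 := Polynomial.natDegree_eq_zero_of_isUnit h
    rw [Polynomial.natDegree_comp, hdeg] at h2
    have h3 : 0 < P'.natDegree * n := Nat.mul_pos hP'.natDegree_pos hf
    omega
  have hne : P'.comp f' ≠ 0 := by
    intro h
    have h2 : (P'.comp f').natDegree = 0 := by rw [h, Polynomial.natDegree_zero]
    rw [Polynomial.natDegree_comp, hdeg] at h2
    have h3 : 0 < P'.natDegree * n := Nat.mul_pos hP'.natDegree_pos hf
    omega
  obtain ⟨Q, hQ, hQd⟩ := WfDvdMonoid.exists_irreducible_factor hnu hne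
  set m := Q.natDegree with hm
  have h4 : Q ∣ (P.comp f).map (algebraMap k k') := by
    rw [Polynomial.map_comp]
    obtain ⟨c, hc⟩ := hd
    rw [hc, Polynomial.mul_comp]
    exact hQd.trans (dvd_mul_right _ _)
  have h5 : Q ∣ Polynomial.X ^ Nat.card k ^ (r * m) - Polynomial.X := by
    rw [pow_mul, ← hcard, ← hQ.natDegree_dvd_iff_dvd_X_pow_card_pow_sub_X]
  have h6 : P.comp f ∣ Polynomial.X ^ Nat.card k ^ (r * m) - Polynomial.X := by
    by_contra hcon
    have h7 : IsCoprime (P.comp f) (Polynomial.X ^ Nat.card k ^ (r * m) - Polynomial.X) :=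
      hPf.coprime_iff_not_dvd.2 hcon
    have h8 := h7.map (Polynomial.mapRingHom (algebraMap k k'))
    rw [Polynomial.coe_mapRingHom, Polynomial.map_sub, Polynomial.map_pow, Polynomial.map_X] at h8
    exact hQ.not_isUnit (h8.isUnit_of_dvd' h4 h5)
  rw [← hPf.natDegree_dvd_iff_dvd_X_pow_card_pow_sub_X, Polynomial.natDegree_comp] at h6
  -- the degree of `Q`
  have h7 : (p / g) * n ∣ m := by
    obtain ⟨c, hc⟩ := Nat.gcd_dvd_left r p
    obtain ⟨d, hd⟩ := Nat.gcd_dvd_right r p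
    rw [← hg] at hc hd
    have e2 : p / g = d := Nat.div_eq_of_eq_mul_right hg0 hd
    have hcd : Nat.Coprime d c := by
      have h9 := Nat.coprime_div_gcd_div_gcd (m := r) (n := p) hg0
      rw [← hg, e2, Nat.div_eq_of_eq_mul_right hg0 hc] at h9
      exact h9.symm
    have hnc : Nat.Coprime n c := (Nat.Coprime.coprime_dvd_left ⟨g, by rw [hc]; ring⟩ hr).symm
    rw [e2]
    have h10 : g * (d * n) ∣ g * (c * m) := by
      have e3 : g * (d * n) = p * n := by
        conv_rhs => rw [hd]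
        ring
      have e4 : g * (c * m) = r * m := by
        conv_rhs => rw [hc]
        ring
      rw [e3, e4]
      exact h6
    have h11 : d * n ∣ c * m := Nat.dvd_of_mul_dvd_mul_left hg0 h10
    exact (Nat.Coprime.mul_left hcd hnc).dvd_of_dvd_mul_left h11
  have h8 : (P'.comp f').natDegree ≤ Q.natDegree := by
    rw [Polynomial.natDegree_comp, hdeg]
    have h9 : P'.natDegree * n ∣ m := (Nat.mul_dvd_mul_right h1 n).trans h7
    exact Nat.le_of_dvd hQ.natDegree_pos h9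
  obtain ⟨c, hc⟩ := hQd
  have hc0 : c ≠ 0 := by
    rintro rfl
    rw [mul_zero] at hc
    exact hne hc
  have h9 : c.natDegree = 0 := by
    rw [hc, Polynomial.natDegree_mul hQ.ne_zero hc0] at h8
    omega
  have h10 : IsUnit c := by
    rw [Polynomial.eq_C_of_natDegree_eq_zero h9] at hc0 ⊢
    rw [Polynomial.isUnit_C]
    exact isUnit_iff_ne_zero.2 fun h => hc0 (by rw [h, Polynomial.C_0])
  have h11 : Associated Q (P'.comp f') := by
    rw [hc]
    exact associated_mul_unit_right Q c h10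
  exact h11.irreducible hQ

end basechange

section irr

variable {k : Type} [Field k] [Finite k] {ℓ : ℕ} [hp : Fact ℓ.Prime]

theorem primes_assoc {g : Polynomial k} (hg : Irreducible g) :
    ∑ R ∈ primes g, (ℓ : ℤ) ^ padicValNat ℓ R.natDegree = (ℓ : ℤ) ^ padicValNat ℓ g.natDegree := by
  have hu : IsUnit (Polynomial.C g.leadingCoeff⁻¹ : Polynomial k) :=
    Polynomial.isUnit_C.2 (isUnit_iff_ne_zero.2 (inv_ne_zero
      (Polynomial.leadingCoeff_ne_zero.2 hg.ne_zero)))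
  have hass : Associated g (g * Polynomial.C g.leadingCoeff⁻¹) :=
    (associated_mul_unit_right g _ hu)
  have hmon := Polynomial.monic_mul_leadingCoeff_inv hg.ne_zero
  have hpr : primes g = {g * Polynomial.C g.leadingCoeff⁻¹} := by
    ext R
    rw [mem_primes hg.ne_zero, Finset.mem_singleton]
    constructor
    · rintro ⟨h1, h2, h3⟩
      exact Polynomial.eq_of_monic_of_associated h1 hmon ((h2.associated_of_dvd hg h3).trans hass)
    · rintro rfl
      exact ⟨hmon, hass.irreducible hg, hass.symm.dvd⟩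
  rw [hpr, Finset.sum_singleton, Polynomial.natDegree_mul_leadingCoeff_inv g hg.ne_zero]

theorem bnd_inert (N M : ℕ) {f D : Polynomial k} (hD : D ≠ 0) (hℓ : ¬ ℓ ∣ f.natDegree)
    (hf : Irreducible f) (hDf : ∀ P, Irreducible P → P ∣ D → Irreducible (P.comp f)) :
    bnd ℓ N M f D = 0 := by
  unfold bnd
  have h1 : ∑ P ∈ primes D, (∑ R ∈ primes (P.comp f), (ℓ : ℤ) ^ padicValNat ℓ R.natDegree -
      (ℓ : ℤ) ^ padicValNat ℓ P.natDegree) = 0 := by
    refine Finset.sum_eq_zero fun P hP => ?_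
    obtain ⟨_, h2, h3⟩ := (mem_primes hD P).1 hP
    rw [primes_assoc (hDf P h2 h3), Polynomial.natDegree_comp,
      padicValNat.mul h2.natDegree_pos.ne' hf.natDegree_pos.ne',
      padicValNat.eq_zero_of_not_dvd hℓ, add_zero, sub_self]
  rw [h1, primes_assoc hf, padicValNat.eq_zero_of_not_dvd hℓ, pow_zero, sub_self]
  ring

end irr

end Pool.Agent.X261.SE
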