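import Pool.Agent.X261.SE.Loc

/-!
# The identity modulo `ℓ` for the curves `y ^ N = D(u ^ M) (f(x) - u ^ M)`
-/

set_option autoImplicit false
set_option linter.unusedSectionVars false

open PowerSeries

namespace Pool.Agent.X261.SE

open Pool.Agent.W313.Hyp Pool.Agent.W343.BSD
open Pool.Agent.TH943.HJ (RF finRF fd1 fd2 finrank_RF finrank_two prod_local exists_over over_unique
  comp_ne fib)
open Pool.Agent.TH943.LP (map_ne prod_facs_map)
open Pool.Agent.TH639.SE (pow_one_mod one_sub_mod red one_sub_ne eulerProd_pow zeta_line Psi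
  Psi_mod eulerProd_Psi)

section

variable {k : Type} [Field k]

/-- The polynomial `f(x) - u ^ M` in `u` over the residue field of the point `R` of the `x`-line. -/
noncomputable def cf (M : ℕ) (f : Polynomial k) (R : MI k) : Polynomial (RF R) :=
  Polynomial.C (AdjoinRoot.mk R.1 f) - Polynomial.X ^ M

/-- The polynomial `D(u ^ M) (f(x) - u ^ M)` in `u` over the residue field of the point `R` of the
`x`-line. -/
noncomputable def gR (M : ℕ) (f D : Polynomial k) (R : MI k) : Polynomial (RF R) :=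
  (D.comp (Polynomial.X ^ M)).map (algebraMap k (RF R)) * cf M f R

/-- The Euler product over the closed points of the plane. -/
noncomputable def LF [Finite k] (N M : ℕ) (f D : Polynomial k) : PowerSeries ℤ :=
  eulerProd (fun z : (Σ R : MI k, MI (RF R)) => z.1.1.natDegree * z.2.1.natDegree)
    (fun z => haveI := finRF z.1; haveI := finRF z.2;
      lf N (AdjoinRoot.mk z.2.1 (gR M f D z.1) : RF z.2) (z.1.1.natDegree * z.2.1.natDegree))

variable [Finite k]

theorem LF_eq (N M : ℕ) (f D : Polynomial k) :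
    LF N M f D = eulerProd (fun R : MI k => R.1.natDegree)
      (fun R => haveI := finRF R; locL N (gR M f D R) R.1.natDegree) := by
  have hfin : ∀ R : MI k, Finite (RF R) := finRF
  unfold LF
  rw [eulerProd_sigma (ι := MI k) (κ := fun R => MI (RF R))
    (d := fun R => R.1.natDegree) (e := fun R S => S.1.natDegree)
    (fun n => finite_deg_le (F := k) n) (fun R => MI.deg_pos R) (fun R n => finite_deg_le n)
    (fun R S => MI.deg_pos S) _ (fun p => by
      have := finRF p.1
      have := finRF p.2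
      exact lf_mod N _ (Nat.mul_pos (MI.deg_pos _) (MI.deg_pos _)))]
  rfl

/-- the prime factors of a composition -/
theorem prod_comp {M : Type*} [CommMonoid M] {D h : Polynomial k} (hD : D ≠ 0)
    (hh : 0 < h.natDegree) (φ : MI k → M) :
    ∏ R ∈ facs (D.comp h), φ R = ∏ P ∈ facs D, ∏ R ∈ facs (P.1.comp h), φ R := by
  classical
  have hDh : D.comp h ≠ 0 := by
    intro h0
    rw [Polynomial.comp_eq_zero_iff] at h0
    rcases h0 with h0 | ⟨_, h0⟩
    · exact hD h0
    · rw [h0, Polynomial.natDegree_C] at hh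
      exact lt_irrefl _ hh
  have h1 : facs (D.comp h) = (facs D).biUnion fun P => facs (P.1.comp h) := by
    ext R
    rw [mem_facs hDh, Finset.mem_biUnion]
    constructor
    · intro hR
      obtain ⟨P, hP⟩ := exists_over (f := h) R
      refine ⟨P, ?_, (mem_facs (comp_ne hh P) _).2 hP⟩
      rw [mem_facs hD]
      by_contra hn
      have h2 : IsCoprime P.1 D := P.2.2.coprime_iff_not_dvd.2 hn
      have h3 : IsCoprime (P.1.comp h) (D.comp h) := h2.map (Polynomial.compRingHom h)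
      exact R.2.2.not_isUnit (h3.isUnit_of_dvd' hP hR)
    · rintro ⟨P, hP, hR⟩
      rw [mem_facs hD] at hP
      rw [mem_facs (comp_ne hh P)] at hR
      obtain ⟨c, rfl⟩ := hP
      rw [Polynomial.mul_comp]
      exact hR.trans (dvd_mul_right _ _)
  rw [h1, Finset.prod_biUnion]
  intro P _ P' _ hne
  rw [Function.onFun, Finset.disjoint_left]
  intro R hR hR'
  rw [mem_facs (comp_ne hh P)] at hR
  rw [mem_facs (comp_ne hh P')] at hR'
  exact hne (over_unique R P P' hR hR')

theorem mapX (M : ℕ) (D : Polynomial k) (R : MI k) :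
    (D.comp (Polynomial.X ^ M)).map (algebraMap k (RF R)) =
      (D.map (algebraMap k (RF R))).comp (Polynomial.X ^ M) := by
  rw [Polynomial.map_comp, Polynomial.map_pow, Polynomial.map_X]

omit [Finite k] in
theorem eval_value (D f : Polynomial k) (R : MI k) :
    (D.map (algebraMap k (RF R))).eval (AdjoinRoot.mk R.1 f) = AdjoinRoot.mk R.1 (D.comp f) := by
  rw [Polynomial.eval_map_algebraMap, ← AdjoinRoot.aeval_eq, ← AdjoinRoot.aeval_eq,
    Polynomial.aeval_comp]

omit [Finite k] in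
theorem cf_ne {M : ℕ} (hM : 0 < M) (f : Polynomial k) (R : MI k) : cf M f R ≠ 0 := by
  unfold cf
  rw [← neg_sub, neg_ne_zero]
  exact (Polynomial.monic_X_pow_sub_C _ hM.ne').ne_zero

theorem X_pow_pos {M : ℕ} (hM : 0 < M) : 0 < (Polynomial.X ^ M : Polynomial k).natDegree := by
  rw [Polynomial.natDegree_X_pow]
  exact hM

theorem DX_ne {M : ℕ} (hM : 0 < M) {D : Polynomial k} (hD : D ≠ 0) :
    D.comp (Polynomial.X ^ M) ≠ 0 := by
  intro h0
  rw [Polynomial.comp_eq_zero_iff] at h0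
  rcases h0 with h0 | ⟨_, h0⟩
  · exact hD h0
  · have h1 := X_pow_pos (k := k) hM
    rw [h0, Polynomial.natDegree_C] at h1
    exact lt_irrefl _ h1

/-- `f(x) - u ^ M` divides `D(u ^ M)` at the points with `D(f(x)) = 0` -/
theorem cf_dvd (M : ℕ) {f D : Polynomial k} {R : MI k} (h : R.1 ∣ D.comp f) :
    cf M f R ∣ (D.comp (Polynomial.X ^ M)).map (algebraMap k (RF R)) := by
  have h1 : (D.map (algebraMap k (RF R))).eval (AdjoinRoot.mk R.1 f) = 0 := by
    rw [eval_value, AdjoinRoot.mk_eq_zero]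
    exact h
  obtain ⟨q, hq⟩ := Polynomial.dvd_iff_isRoot.2 h1
  rw [mapX, hq, Polynomial.mul_comp, Polynomial.sub_comp, Polynomial.X_comp, Polynomial.C_comp]
  unfold cf
  exact ⟨-(q.comp (Polynomial.X ^ M)), by ring⟩

/-- the two factors are prime to each other at the other points -/
theorem cf_coprime (M : ℕ) {f D : Polynomial k} {R : MI k} (h : ¬ R.1 ∣ D.comp f) :
    IsCoprime ((D.comp (Polynomial.X ^ M)).map (algebraMap k (RF R))) (cf M f R) := by
  set c : RF R := AdjoinRoot.mk R.1 f with hc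
  have h1 : (D.map (algebraMap k (RF R))).eval c ≠ 0 := by
    rw [hc, eval_value, Ne, AdjoinRoot.mk_eq_zero]
    exact h
  have h2 : IsCoprime (Polynomial.X - Polynomial.C c) (D.map (algebraMap k (RF R))) := by
    rw [(Polynomial.irreducible_X_sub_C c).coprime_iff_not_dvd, Polynomial.dvd_iff_isRoot]
    exact h1
  have h3 := h2.map (Polynomial.compRingHom (Polynomial.X ^ M))
  rw [Polynomial.coe_compRingHom_apply, Polynomial.coe_compRingHom_apply, Polynomial.sub_comp,
    Polynomial.X_comp, Polynomial.C_comp, ← mapX] at h3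
  have h4 : cf M f R = -(Polynomial.X ^ M - Polynomial.C c) := by
    unfold cf
    rw [neg_sub]
  rw [h4]
  exact h3.symm.neg_right

theorem facs_mul_of_coprime {F : Type} [Field F] [Finite F] {g h : Polynomial F} (hg : g ≠ 0)
    (hh : h ≠ 0) (hc : IsCoprime g h) {M : Type*} [CommMonoid M] (φ : MI F → M) :
    ∏ S ∈ facs (g * h), φ S = (∏ S ∈ facs g, φ S) * ∏ S ∈ facs h, φ S := by
  classical
  have h1 : facs (g * h) = facs g ∪ facs h := by
    ext S
    rw [Finset.mem_union, mem_facs hg, mem_facs hh, mem_facs (mul_ne_zero hg hh)]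
    exact S.2.2.prime.dvd_mul
  rw [h1, Finset.prod_union]
  rw [Finset.disjoint_left]
  intro S hS hS'
  rw [mem_facs hg] at hS
  rw [mem_facs hh] at hS'
  exact S.2.2.not_isUnit (hc.isUnit_of_dvd' hS hS')

theorem facs_neg {F : Type} [Field F] [Finite F] {g : Polynomial F} (hg : g ≠ 0) :
    facs (-g) = facs g := by
  ext S
  rw [mem_facs (neg_ne_zero.2 hg), mem_facs hg, dvd_neg]

variable {ℓ : ℕ} [hp : Fact ℓ.Prime]

open Classical in
/-- the points of the curve `f(x) = u ^ M` -/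
theorem prod_cf (hq : ℓ ∣ Nat.card k - 1) (b : ℕ) (f : Polynomial k) (R : MI k) (d : ℕ) :
    haveI := finRF R
    ∏ S ∈ facs (cf (ℓ ^ b) f R), (1 - X ^ (d * S.1.natDegree) : PowerSeries (ZMod ℓ)) =
      if R.1 ∣ f then 1 - X ^ d else (1 - X ^ d) ^ ℓ ^ b := by
  have := finRF R
  have hM : 0 < ℓ ^ b := pow_pos hp.out.pos b
  have h1 : facs (cf (ℓ ^ b) f R) =
      facs (Polynomial.X ^ ℓ ^ b - Polynomial.C (AdjoinRoot.mk R.1 f) : Polynomial (RF R)) := by
    unfold cf
    rw [← neg_sub, facs_neg (Polynomial.monic_X_pow_sub_C _ hM.ne').ne_zero]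
  rw [h1]
  split_ifs with hR
  · have h2 : (AdjoinRoot.mk R.1 f : RF R) = 0 := AdjoinRoot.mk_eq_zero.2 hR
    rw [h2, Polynomial.C_0, sub_zero, facs_X_pow hM, Finset.prod_singleton]
    show (1 - X ^ (d * (Polynomial.X : Polynomial (RF R)).natDegree) : PowerSeries (ZMod ℓ)) = _
    rw [Polynomial.natDegree_X, mul_one]
  · exact prod_pow (card_RF_dvd hq R) b (by
      rw [Ne, AdjoinRoot.mk_eq_zero]
      exact hR) d

open Classical in
/-- **the identity modulo `ℓ`** -/
theorem identity (hq : ℓ ∣ Nat.card k - 1) (a b : ℕ) {f D : Polynomial k} (hf : 0 < f.natDegree)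
    (hD : D ≠ 0) (hD0 : D.eval 0 ≠ 0) :
    red ℓ (LF (ℓ ^ a) (ℓ ^ b) f D) *
      ((∏ P ∈ facs D, (1 - X ^ P.1.natDegree)) ^ ℓ ^ b * (1 - X) ^ ℓ ^ b) ^ (ℓ ^ a - 1) =
      ((1 - X) * ((∏ P ∈ facs D, ∏ R ∈ facs (P.1.comp f), (1 - X ^ R.1.natDegree)) ^ ℓ ^ b *
        (∏ R ∈ facs f, (1 - X ^ R.1.natDegree)) ^ (ℓ ^ b - 1))) ^ (ℓ ^ a - 1) := by
  have hfin : ∀ R : MI k, Finite (RF R) := finRF
  have hfd := fun n => finite_deg_le (F := k) n
  have hM : 0 < ℓ ^ b := pow_pos hp.out.pos b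
  have hf0 : f ≠ 0 := fun h => by
    rw [h, Polynomial.natDegree_zero] at hf
    exact lt_irrefl _ hf
  have hDf0 : D.comp f ≠ 0 := by
    intro h0
    rw [Polynomial.comp_eq_zero_iff] at h0
    rcases h0 with h0 | ⟨_, h0⟩
    · exact hD h0
    · rw [h0, Polynomial.natDegree_C] at hf
      exact lt_irrefl _ hf
  have hg0 : D.comp (Polynomial.X ^ ℓ ^ b) ≠ 0 := DX_ne hM hD
  set N1 := ℓ ^ a - 1 with hN1
  set M := ℓ ^ b with hMd
  set g := D.comp (Polynomial.X ^ M) with hg
  set Z : MI k → PowerSeries (ZMod ℓ) := fun R => 1 - X ^ R.1.natDegree with hZ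
  set W : MI k → PowerSeries (ZMod ℓ) :=
    fun R => red ℓ (locL (ℓ ^ a) (gR M f D R) R.1.natDegree) with hW
  set A : MI k → PowerSeries (ZMod ℓ) := fun R => Psi ℓ g R.1.natDegree with hA
  have hZ1 : ∀ R, (X : PowerSeries (ZMod ℓ)) ^ R.1.natDegree ∣ Z R - 1 := fun R =>
    one_sub_mod le_rfl
  have hA1 : ∀ R, (X : PowerSeries (ZMod ℓ)) ^ R.1.natDegree ∣ A R - 1 := fun R =>
    Psi_mod g (MI.deg_pos R)
  have hW1 : ∀ R, (X : PowerSeries (ZMod ℓ)) ^ R.1.natDegree ∣ W R - 1 := by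
    intro R
    have h3 := map_dvd (red ℓ) (locL_mod_one (ℓ ^ a) (gR M f D R) (MI.deg_pos R))
    rwa [map_sub, map_one, map_pow, PowerSeries.map_X] at h3
  have hZne : ∀ R, Z R ≠ 0 := fun R => one_sub_ne (MI.deg_pos R)
  have hgR : ∀ R, gR M f D R ≠ 0 := fun R => mul_ne_zero (map_ne hg0 R) (cf_ne hM f R)
  -- local computations
  have hloc : ∀ R, W R * (∏ P ∈ facs (gR M f D R), (1 - X ^ (R.1.natDegree * P.1.natDegree))) ^ N1 =
      Z R ^ N1 := fun R => locL_red (card_RF_dvd hq R) a (hgR R) (MI.deg_pos R)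
  have hAR : ∀ R, ∏ P ∈ facs (g.map (algebraMap k (RF R))),
      (1 - X ^ (R.1.natDegree * P.1.natDegree) : PowerSeries (ZMod ℓ)) = A R := fun R =>
    prod_facs_map hg0 R (fun n => (1 - X ^ n : PowerSeries (ZMod ℓ)))
  have hU : ∀ R, W R * A R ^ N1 * (Z R ^ M) ^ N1 =
      if R ∈ facs (D.comp f) then Z R ^ N1 * (Z R ^ M) ^ N1
      else if R ∈ facs f then Z R ^ N1 * (Z R ^ (M - 1)) ^ N1 else Z R ^ N1 := by
    intro R
    have h1 := hloc R
    by_cases hR : R ∈ facs (D.comp f)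
    · rw [if_pos hR]
      have hRd := (mem_facs hDf0 R).1 hR
      have h2 : facs (gR M f D R) = facs (g.map (algebraMap k (RF R))) := by
        ext S
        rw [mem_facs (hgR R), mem_facs (map_ne hg0 R)]
        unfold gR
        rw [S.2.2.prime.dvd_mul]
        exact ⟨fun h => h.elim id fun h => h.trans (cf_dvd M hRd), Or.inl⟩
      rw [h2, hAR] at h1
      rw [h1]
    · rw [if_neg hR]
      have hRd : ¬ R.1 ∣ D.comp f := fun h => hR ((mem_facs hDf0 R).2 h)
      have h2 : ∏ P ∈ facs (gR M f D R),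
          (1 - X ^ (R.1.natDegree * P.1.natDegree) : PowerSeries (ZMod ℓ)) =
          A R * ∏ S ∈ facs (cf M f R), (1 - X ^ (R.1.natDegree * S.1.natDegree)) := by
        rw [← hAR R]
        exact facs_mul_of_coprime (map_ne hg0 R) (cf_ne hM f R) (cf_coprime M hRd)
          (fun S => (1 - X ^ (R.1.natDegree * S.1.natDegree) : PowerSeries (ZMod ℓ)))
      rw [h2, prod_cf hq b f R, mul_pow] at h1
      by_cases hRf : R.1 ∣ f
      · rw [if_pos hRf] at h1
        rw [if_pos ((mem_facs hf0 R).2 hRf)]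
        have h3 : Z R ^ M = Z R * Z R ^ (M - 1) := by
          rw [← pow_succ', Nat.sub_add_cancel hM]
        rw [h3, mul_pow]
        have h4 : W R * (A R ^ N1 * Z R ^ N1) = Z R ^ N1 := h1
        linear_combination (Z R ^ (M - 1)) ^ N1 * h4
      · rw [if_neg hRf] at h1
        rw [if_neg (fun h => hRf ((mem_facs hf0 R).1 h))]
        have h4 : W R * (A R ^ N1 * (Z R ^ M) ^ N1) = Z R ^ N1 := h1
        linear_combination h4
  -- disjointness
  have hdisj : Disjoint (facs (D.comp f)) (facs f) := by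
    rw [Finset.disjoint_left]
    intro R hR hR'
    rw [mem_facs hDf0] at hR
    rw [mem_facs hf0] at hR'
    have h1 := eval_value D f R
    have h2 : (AdjoinRoot.mk R.1 f : RF R) = 0 := AdjoinRoot.mk_eq_zero.2 hR'
    rw [AdjoinRoot.mk_eq_zero.2 hR, h2, Polynomial.eval_map_algebraMap] at h1
    have h3 : Polynomial.aeval (0 : RF R) D = algebraMap k (RF R) (D.eval 0) := by
      rw [← map_zero (algebraMap k (RF R)), Polynomial.aeval_algebraMap_apply]
      rfl
    rw [h3] at h1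
    exact hD0 ((_root_.map_eq_zero _).1 h1)
  -- the global identity
  set B : Finset (MI k) := facs (D.comp f) ∪ facs f with hB
  have key := fin_factor' (F := fun R => W R * A R ^ N1 * (Z R ^ M) ^ N1)
    (W := fun R => Z R ^ N1) hfd
    (fun R => one_mod_mul (one_mod_mul (hW1 R) (pow_one_mod (hA1 R) _))
      (pow_one_mod (pow_one_mod (hZ1 R) _) _)) (fun R => pow_one_mod (hZ1 R) _) B
    (fun R hR => by
      rw [hB, Finset.mem_union, not_or] at hR
      rw [hU R, if_neg hR.1, if_neg hR.2])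
  have hEZ : eulerProd (fun R : MI k => R.1.natDegree) Z = 1 - X := by
    have h1 := zeta_line (F := k) (card_cast hq) one_pos
    simp only [one_mul, pow_one] at h1
    exact h1
  have hEA : eulerProd (fun R : MI k => R.1.natDegree) A = ∏ P ∈ facs g, (1 - X ^ P.1.natDegree) :=
    eulerProd_Psi (card_cast hq) g
  have hEW : eulerProd (fun R : MI k => R.1.natDegree) W = red ℓ (LF (ℓ ^ a) M f D) := by
    rw [LF_eq, map_eulerProd hfd]
  have hgprod : ∏ P ∈ facs g, (1 - X ^ P.1.natDegree : PowerSeries (ZMod ℓ)) =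
      (∏ P ∈ facs D, (1 - X ^ P.1.natDegree)) ^ M := by
    rw [hg, prod_comp hD (X_pow_pos hM), ← Finset.prod_pow]
    refine Finset.prod_congr rfl fun P hP => ?_
    have hPX : (AdjoinRoot.root P.1 : RF P) ≠ 0 := by
      intro h0
      have h1 : P.1 ∣ Polynomial.X := by
        rw [← AdjoinRoot.mk_eq_zero, AdjoinRoot.mk_X]
        exact h0
      have h2 : P = ⟨Polynomial.X, Polynomial.monic_X, Polynomial.irreducible_X⟩ :=
        eq_of_dvd_MI (Q := ⟨Polynomial.X, Polynomial.monic_X, Polynomial.irreducible_X⟩) h1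
      rw [mem_facs hD, h2] at hP
      obtain ⟨c, hc⟩ := hP
      apply hD0
      rw [hc]
      simp
    have hfib : fib (Polynomial.X ^ M) P =
        (Polynomial.X ^ M - Polynomial.C (AdjoinRoot.root P.1) : Polynomial (RF P)) := by
      unfold fib
      rw [Polynomial.map_pow, Polynomial.map_X]
    have h3 := prod_local (Polynomial.X ^ M) P (by
      rw [hfib]
      exact (Polynomial.monic_X_pow_sub_C _ hM.ne').ne_zero) (comp_ne (X_pow_pos hM) P)
      (fun n => (1 - X ^ n : PowerSeries (ZMod ℓ)))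
    rw [← h3, hfib]
    exact prod_pow (card_RF_dvd hq P) b hPX P.1.natDegree
  rw [eulerProd_mul hfd (fun R => one_mod_mul (hW1 R) (pow_one_mod (hA1 R) _))
      (fun R => pow_one_mod (pow_one_mod (hZ1 R) _) _),
    eulerProd_mul hfd hW1 (fun R => pow_one_mod (hA1 R) _),
    eulerProd_pow hfd hA1, eulerProd_pow hfd (fun R => pow_one_mod (hZ1 R) M),
    eulerProd_pow hfd hZ1, eulerProd_pow hfd hZ1, hEZ, hEA, hEW, hgprod] at key
  have hBF : ∏ R ∈ B, (W R * A R ^ N1 * (Z R ^ M) ^ N1) =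
      (∏ R ∈ B, Z R ^ N1) * ((∏ R ∈ facs (D.comp f), Z R) ^ M *
        (∏ R ∈ facs f, Z R) ^ (M - 1)) ^ N1 := by
    rw [hB, Finset.prod_union hdisj, Finset.prod_union hdisj]
    have e1 : ∏ R ∈ facs (D.comp f), (W R * A R ^ N1 * (Z R ^ M) ^ N1) =
        (∏ R ∈ facs (D.comp f), Z R ^ N1) * ((∏ R ∈ facs (D.comp f), Z R) ^ M) ^ N1 := by
      rw [← Finset.prod_pow, ← Finset.prod_pow, ← Finset.prod_mul_distrib]
      refine Finset.prod_congr rfl fun R hR => ?_
      rw [hU R, if_pos hR]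
    have e2 : ∏ R ∈ facs f, (W R * A R ^ N1 * (Z R ^ M) ^ N1) =
        (∏ R ∈ facs f, Z R ^ N1) * ((∏ R ∈ facs f, Z R) ^ (M - 1)) ^ N1 := by
      rw [← Finset.prod_pow, ← Finset.prod_pow, ← Finset.prod_mul_distrib]
      refine Finset.prod_congr rfl fun R hR => ?_
      rw [hU R, if_neg (Finset.disjoint_right.1 hdisj hR), if_pos hR]
    rw [e1, e2, mul_pow]
    ring
  rw [hBF] at key
  have hBne : ∏ R ∈ B, Z R ^ N1 ≠ 0 :=
    Finset.prod_ne_zero_iff.2 fun R _ => pow_ne_zero _ (hZne R)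
  have key2 : red ℓ (LF (ℓ ^ a) M f D) * ((∏ P ∈ facs D, (1 - X ^ P.1.natDegree)) ^ M) ^ N1 *
      ((1 - X) ^ M) ^ N1 * ∏ R ∈ B, Z R ^ N1 =
      (1 - X) ^ N1 * ((∏ R ∈ facs (D.comp f), Z R) ^ M * (∏ R ∈ facs f, Z R) ^ (M - 1)) ^ N1 *
      ∏ R ∈ B, Z R ^ N1 := by
    linear_combination key
  have h9 := mul_right_cancel₀ hBne key2
  rw [mul_pow, mul_pow (1 - X), ← mul_assoc, h9, prod_comp hD hf]

end

end Pool.Agent.X261.SE
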