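import Pool.Agent.X261.SE.Pow

/-!
# The Euler factors of the curves `y ^ N = g(x)` modulo `ℓ`, `N` a power of `ℓ`
-/

set_option autoImplicit false
set_option linter.unusedSectionVars false

open PowerSeries

namespace Pool.Agent.X261.SE

open Pool.Agent.W313.Hyp Pool.Agent.W343.BSD
open Pool.Agent.TH943.HJ (RF finRF fd1 fd2 finrank_RF finrank_two)
open Pool.Agent.TH639.SE (pow_one_mod one_sub_mod red one_sub_ne eulerProd_pow zeta_line)

/-- the series `1 + X ^ n + X ^ (2 n) + ...` -/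
noncomputable def geo (n : ℕ) : PowerSeries ℤ := PowerSeries.mk fun m => if n ∣ m then 1 else 0

theorem geo_mul {n : ℕ} (hn : 0 < n) : (1 - X ^ n) * geo n = 1 := by
  ext m
  rw [sub_mul, one_mul, map_sub, coeff_X_pow_mul', coeff_one]
  unfold geo
  rw [coeff_mk, coeff_mk]
  by_cases hm : m = 0
  · subst hm
    rw [if_pos (dvd_zero n), if_neg (by omega), if_pos rfl, sub_zero]
  · rw [if_neg hm]
    by_cases hd : n ∣ m
    · have h1 : n ≤ m := Nat.le_of_dvd (Nat.pos_of_ne_zero hm) hd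
      rw [if_pos hd, if_pos h1, if_pos (Nat.dvd_sub hd dvd_rfl), sub_self]
    · rw [if_neg hd]
      split_ifs with h1 h2
      · exact absurd (by
          have := Nat.dvd_add h2 (dvd_refl n)
          rwa [Nat.sub_add_cancel h1] at this) hd
      · exact sub_zero 0
      · exact sub_zero 0

theorem geo_mod {n : ℕ} (hn : 0 < n) : (X : PowerSeries ℤ) ^ n ∣ geo n - 1 := by
  have h := geo_mul hn
  refine ⟨geo n, ?_⟩
  linear_combination h

section lf

variable {E : Type} [Field E] [Finite E]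

/-- the Euler factor -/
noncomputable def lf (N : ℕ) (c : E) (n : ℕ) : PowerSeries ℤ :=
  (∏ S ∈ facs (Polynomial.X ^ N - Polynomial.C c : Polynomial E), (1 - X ^ (n * S.1.natDegree))) *
    geo n

theorem lf_mod (N : ℕ) (c : E) {n : ℕ} (hn : 0 < n) : (X : PowerSeries ℤ) ^ n ∣ lf N c n - 1 := by
  unfold lf
  apply one_mod_mul
  · have h := prod_congr_mod (facs (Polynomial.X ^ N - Polynomial.C c : Polynomial E))
      (fun S => (1 - X ^ (n * S.1.natDegree) : PowerSeries ℤ)) (fun _ => 1) n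
      (fun S _ => one_sub_mod (Nat.le_mul_of_pos_right _ (MI.deg_pos S)))
    rwa [Finset.prod_const_one] at h
  · exact geo_mod hn

theorem lf_zero {N : ℕ} (hN : 0 < N) {n : ℕ} (hn : 0 < n) : lf N (0 : E) n = 1 := by
  unfold lf
  rw [Polynomial.C_0, sub_zero, facs_X_pow hN, Finset.prod_singleton]
  have h1 : (Polynomial.X : Polynomial E).natDegree = 1 := Polynomial.natDegree_X
  show (1 - X ^ (n * (Polynomial.X : Polynomial E).natDegree)) * geo n = 1
  rw [h1, mul_one, geo_mul hn]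

theorem red_lf {ℓ : ℕ} [hp : Fact ℓ.Prime] (h : ℓ ∣ Nat.card E - 1) (a : ℕ) {c : E} (hc : c ≠ 0)
    {n : ℕ} (hn : 0 < n) :
    red ℓ (lf (ℓ ^ a) c n) = (1 - X ^ n) ^ (ℓ ^ a - 1) := by
  have h1 : red ℓ (geo n) * (1 - X ^ n) = 1 := by
    have h2 := congrArg (red ℓ) (geo_mul hn)
    rw [map_mul, map_sub, map_one, map_pow, PowerSeries.map_X] at h2
    rw [mul_comm]
    exact h2
  have h3 : red ℓ (∏ S ∈ facs (Polynomial.X ^ ℓ ^ a - Polynomial.C c : Polynomial E),
      (1 - X ^ (n * S.1.natDegree))) = (1 - X ^ n) ^ ℓ ^ a := by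
    rw [map_prod, ← prod_pow h a hc n]
    refine Finset.prod_congr rfl fun S _ => ?_
    rw [map_sub, map_one, map_pow, PowerSeries.map_X]
  unfold lf
  rw [map_mul, h3]
  have h4 : ℓ ^ a = (ℓ ^ a - 1) + 1 := (Nat.sub_add_cancel (Nat.one_le_pow _ _ hp.out.pos)).symm
  rw [h4, pow_succ, ← h4]
  linear_combination (1 - X ^ n) ^ (ℓ ^ a - 1) * h1

end lf

section line

variable {F : Type} [Field F] [Finite F]

/-- the product over the closed points of the line of the factors for the values of `g` -/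
noncomputable def locL (N : ℕ) (g : Polynomial F) (d : ℕ) : PowerSeries ℤ :=
  eulerProd (fun S : MI F => d * S.1.natDegree)
    (fun S => haveI := finRF S; lf N (AdjoinRoot.mk S.1 g : RF S) (d * S.1.natDegree))

theorem fac_mod (N : ℕ) (g : Polynomial F) {d : ℕ} (hd : 0 < d) (S : MI F) :
    (X : PowerSeries ℤ) ^ (d * S.1.natDegree) ∣
      (haveI := finRF S; lf N (AdjoinRoot.mk S.1 g : RF S) (d * S.1.natDegree)) - 1 := by
  have := finRF S
  exact lf_mod N _ (Nat.mul_pos hd (MI.deg_pos S))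

theorem locL_mod_one (N : ℕ) (g : Polynomial F) {d : ℕ} (hd : 0 < d) :
    (X : PowerSeries ℤ) ^ d ∣ locL N g d - 1 :=
  euler_one_mod (finite_d hd) (fun S => fac_mod N g hd S) d fun S =>
    (pow_dvd_pow _ (Nat.le_mul_of_pos_right _ (MI.deg_pos S))).trans (fac_mod N g hd S)

theorem card_RF_dvd {ℓ : ℕ} (h : ℓ ∣ Nat.card F - 1) (S : MI F) : ℓ ∣ Nat.card (RF S) - 1 := by
  have h0 := fd1 S
  rw [Module.natCard_eq_pow_finrank (K := F) (V := RF S)]
  exact h.trans (by
    have := Nat.sub_dvd_pow_sub_pow (Nat.card F) 1 (Module.finrank F (RF S))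
    rwa [one_pow] at this)

theorem card_cast {ℓ : ℕ} (h : ℓ ∣ Nat.card F - 1) : ((Nat.card F : ℕ) : ZMod ℓ) = 1 := by
  have h1 := (ZMod.natCast_eq_zero_iff _ _).2 h
  rw [Nat.cast_sub Finite.card_pos, Nat.cast_one, sub_eq_zero] at h1
  exact h1

/-- the local identity -/
theorem locL_red {ℓ : ℕ} [hp : Fact ℓ.Prime] (hF : ℓ ∣ Nat.card F - 1) (a : ℕ)
    {g : Polynomial F} (h0 : g ≠ 0) {d : ℕ} (hd : 0 < d) :
    red ℓ (locL (ℓ ^ a) g d) *
      (∏ P ∈ facs g, (1 - X ^ (d * P.1.natDegree))) ^ (ℓ ^ a - 1) =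
      (1 - X ^ d) ^ (ℓ ^ a - 1) := by
  have hN : 0 < ℓ ^ a := pow_pos hp.out.pos a
  have hpos : ∀ P : MI F, 0 < d * P.1.natDegree := fun P => Nat.mul_pos hd (MI.deg_pos P)
  have h1 : ∀ P : MI F, (X : PowerSeries (ZMod ℓ)) ^ (d * P.1.natDegree) ∣
      (1 - X ^ (d * P.1.natDegree)) - 1 := fun P => one_sub_mod le_rfl
  set G : MI F → PowerSeries ℤ := fun S =>
    haveI := finRF S; lf (ℓ ^ a) (AdjoinRoot.mk S.1 g : RF S) (d * S.1.natDegree) with hG
  have h2 : ∀ P : MI F, (X : PowerSeries (ZMod ℓ)) ^ (d * P.1.natDegree) ∣ red ℓ (G P) - 1 := by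
    intro P
    have h3 := map_dvd (red ℓ) (fac_mod (ℓ ^ a) g hd P)
    rwa [map_sub, map_one, map_pow, PowerSeries.map_X] at h3
  have key := fin_factor' (finite_d hd)
    (F := fun P : MI F => (1 - X ^ (d * P.1.natDegree) : PowerSeries (ZMod ℓ)) ^ (ℓ ^ a - 1))
    (fun P => pow_one_mod (h1 P) _) h2 (facs g) (fun P hP => by
      have := finRF P
      have h5 : (AdjoinRoot.mk P.1 g : RF P) ≠ 0 := by
        rw [Ne, AdjoinRoot.mk_eq_zero]
        exact fun hPh => hP ((mem_facs h0 P).2 hPh)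
      exact (red_lf (card_RF_dvd hF P) a h5 (hpos P)).symm)
  have h4 : ∏ P ∈ facs g, red ℓ (G P) = 1 :=
    Finset.prod_eq_one fun P hP => by
      have := finRF P
      have h5 : (AdjoinRoot.mk P.1 g : RF P) = 0 :=
        AdjoinRoot.mk_eq_zero.2 ((mem_facs h0 P).1 hP)
      show red ℓ (lf (ℓ ^ a) (AdjoinRoot.mk P.1 g : RF P) (d * P.1.natDegree)) = 1
      rw [h5, lf_zero hN (hpos P), map_one]
  rw [h4, mul_one, eulerProd_pow (finite_d hd) h1, zeta_line (card_cast hF) hd,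
    Finset.prod_pow] at key
  have h5 : red ℓ (locL (ℓ ^ a) g d) = eulerProd (fun P : MI F => d * P.1.natDegree)
      (fun P => red ℓ (G P)) := by
    unfold locL
    exact map_eulerProd (finite_d hd) _
  rw [h5, ← key]

end line

end Pool.Agent.X261.SE
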