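import Pool.Agent.X261.SE.Comp

/-!
# The identity modulo `ℓ` without the tower
-/

set_option autoImplicit false
set_option linter.unusedSectionVars false

open PowerSeries

namespace Pool.Agent.X261.SE

open Pool.Agent.W313.Hyp Pool.Agent.W343.BSD
open Pool.Agent.TH943.HJ (RF finRF fd1 fd2 finrank_RF finrank_two prod_local exists_over over_unique
  comp_ne fib)
open Pool.Agent.TH943.LP (map_ne prod_facs_map)
open Pool.Agent.TH639.SE (pow_one_mod one_sub_mod red one_sub_ne eulerProd_pow zeta_line Psi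
  Psi_mod eulerProd_Psi IsMu isMu_facs primes mem_primes sum_primes)

section

variable {k : Type} [Field k] [Finite k] {ℓ : ℕ} [hp : Fact ℓ.Prime]

/-- **the identity modulo `ℓ`** -/
theorem identity1 (hq : ℓ ∣ Nat.card k - 1) (a : ℕ) {f D : Polynomial k} (hf : 0 < f.natDegree)
    (hD : D ≠ 0) :
    red ℓ (LF (ℓ ^ a) 1 f D) * ((∏ P ∈ facs D, (1 - X ^ P.1.natDegree)) * (1 - X)) ^ (ℓ ^ a - 1) =
      ((1 - X) * ∏ P ∈ facs D, ∏ R ∈ facs (P.1.comp f), (1 - X ^ R.1.natDegree)) ^
        (ℓ ^ a - 1) := by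
  classical
  have hfin : ∀ R : MI k, Finite (RF R) := finRF
  have hfd := fun n => finite_deg_le (F := k) n
  have hDf0 : D.comp f ≠ 0 := by
    intro h0
    rw [Polynomial.comp_eq_zero_iff] at h0
    rcases h0 with h0 | ⟨_, h0⟩
    · exact hD h0
    · rw [h0, Polynomial.natDegree_C] at hf
      exact lt_irrefl _ hf
  have hg : D.comp (Polynomial.X ^ 1) = D := by rw [pow_one, Polynomial.comp_X]
  set N1 := ℓ ^ a - 1 with hN1
  set Z : MI k → PowerSeries (ZMod ℓ) := fun R => 1 - X ^ R.1.natDegree with hZ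
  set W : MI k → PowerSeries (ZMod ℓ) :=
    fun R => red ℓ (locL (ℓ ^ a) (gR 1 f D R) R.1.natDegree) with hW
  set A : MI k → PowerSeries (ZMod ℓ) := fun R => Psi ℓ D R.1.natDegree with hA
  have hZ1 : ∀ R, (X : PowerSeries (ZMod ℓ)) ^ R.1.natDegree ∣ Z R - 1 := fun R =>
    one_sub_mod le_rfl
  have hA1 : ∀ R, (X : PowerSeries (ZMod ℓ)) ^ R.1.natDegree ∣ A R - 1 := fun R =>
    Psi_mod D (MI.deg_pos R)
  have hW1 : ∀ R, (X : PowerSeries (ZMod ℓ)) ^ R.1.natDegree ∣ W R - 1 := by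
    intro R
    have h3 := map_dvd (red ℓ) (locL_mod_one (ℓ ^ a) (gR 1 f D R) (MI.deg_pos R))
    rwa [map_sub, map_one, map_pow, PowerSeries.map_X] at h3
  have hZne : ∀ R, Z R ≠ 0 := fun R => one_sub_ne (MI.deg_pos R)
  have hgR : ∀ R, gR 1 f D R ≠ 0 := fun R => mul_ne_zero (by rw [hg]; exact map_ne hD R)
    (cf_ne one_pos f R)
  -- local computations
  have hloc : ∀ R, W R * (∏ P ∈ facs (gR 1 f D R), (1 - X ^ (R.1.natDegree * P.1.natDegree))) ^ N1 =
      Z R ^ N1 := fun R => locL_red (card_RF_dvd hq R) a (hgR R) (MI.deg_pos R)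
  have hAR : ∀ R, ∏ P ∈ facs (D.map (algebraMap k (RF R))),
      (1 - X ^ (R.1.natDegree * P.1.natDegree) : PowerSeries (ZMod ℓ)) = A R := fun R =>
    prod_facs_map hD R (fun n => (1 - X ^ n : PowerSeries (ZMod ℓ)))
  have hcf : ∀ R : MI k, ∏ S ∈ facs (cf 1 f R),
      (1 - X ^ (R.1.natDegree * S.1.natDegree) : PowerSeries (ZMod ℓ)) = Z R := by
    intro R
    have h1 := prod_cf hq 0 f R R.1.natDegree
    rw [pow_zero, pow_one, ite_self] at h1
    exact h1
  have hU : ∀ R, W R * A R ^ N1 * Z R ^ N1 =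
      if R ∈ facs (D.comp f) then Z R ^ N1 * Z R ^ N1 else Z R ^ N1 := by
    intro R
    have h1 := hloc R
    by_cases hR : R ∈ facs (D.comp f)
    · rw [if_pos hR]
      have hRd := (mem_facs hDf0 R).1 hR
      have h2 : facs (gR 1 f D R) = facs (D.map (algebraMap k (RF R))) := by
        ext S
        rw [mem_facs (hgR R), mem_facs (map_ne hD R)]
        unfold gR
        rw [S.2.2.prime.dvd_mul, hg]
        have h5 := cf_dvd 1 hRd
        rw [hg] at h5
        exact ⟨fun h => h.elim id fun h => h.trans h5, Or.inl⟩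
      rw [h2, hAR] at h1
      rw [h1]
    · rw [if_neg hR]
      have hRd : ¬ R.1 ∣ D.comp f := fun h => hR ((mem_facs hDf0 R).2 h)
      have h2 : ∏ P ∈ facs (gR 1 f D R),
          (1 - X ^ (R.1.natDegree * P.1.natDegree) : PowerSeries (ZMod ℓ)) = A R * Z R := by
        rw [← hAR R, ← hcf R]
        have h5 := cf_coprime 1 hRd
        have h6 := facs_mul_of_coprime (by rw [hg]; exact map_ne hD R) (cf_ne one_pos f R) h5
          (fun S => (1 - X ^ (R.1.natDegree * S.1.natDegree) : PowerSeries (ZMod ℓ)))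
        unfold gR
        rw [h6, hg]
      rw [h2, mul_pow] at h1
      linear_combination h1
  -- the global identity
  have key := fin_factor' (F := fun R => W R * A R ^ N1 * Z R ^ N1)
    (W := fun R => Z R ^ N1) hfd
    (fun R => one_mod_mul (one_mod_mul (hW1 R) (pow_one_mod (hA1 R) _))
      (pow_one_mod (hZ1 R) _)) (fun R => pow_one_mod (hZ1 R) _) (facs (D.comp f))
    (fun R hR => by rw [hU R, if_neg hR])
  have hEZ : eulerProd (fun R : MI k => R.1.natDegree) Z = 1 - X := by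
    have h1 := zeta_line (F := k) (card_cast hq) one_pos
    simp only [one_mul, pow_one] at h1
    exact h1
  have hEA : eulerProd (fun R : MI k => R.1.natDegree) A = ∏ P ∈ facs D, (1 - X ^ P.1.natDegree) :=
    eulerProd_Psi (card_cast hq) D
  have hEW : eulerProd (fun R : MI k => R.1.natDegree) W = red ℓ (LF (ℓ ^ a) 1 f D) := by
    rw [LF_eq, map_eulerProd hfd]
  rw [eulerProd_mul hfd (fun R => one_mod_mul (hW1 R) (pow_one_mod (hA1 R) _))
      (fun R => pow_one_mod (hZ1 R) _),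
    eulerProd_mul hfd hW1 (fun R => pow_one_mod (hA1 R) _),
    eulerProd_pow hfd hA1, eulerProd_pow hfd hZ1, hEZ, hEA, hEW] at key
  have hBF : ∏ R ∈ facs (D.comp f), (W R * A R ^ N1 * Z R ^ N1) =
      (∏ R ∈ facs (D.comp f), Z R ^ N1) * (∏ R ∈ facs (D.comp f), Z R) ^ N1 := by
    rw [← Finset.prod_pow, ← Finset.prod_mul_distrib]
    refine Finset.prod_congr rfl fun R hR => ?_
    rw [hU R, if_pos hR]
  rw [hBF] at key
  have hBne : ∏ R ∈ facs (D.comp f), Z R ^ N1 ≠ 0 :=
    Finset.prod_ne_zero_iff.2 fun R _ => pow_ne_zero _ (hZne R)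
  have key2 : red ℓ (LF (ℓ ^ a) 1 f D) * (∏ P ∈ facs D, (1 - X ^ P.1.natDegree)) ^ N1 *
      (1 - X) ^ N1 * ∏ R ∈ facs (D.comp f), Z R ^ N1 =
      (1 - X) ^ N1 * (∏ R ∈ facs (D.comp f), Z R) ^ N1 * ∏ R ∈ facs (D.comp f), Z R ^ N1 := by
    linear_combination key
  have h9 := mul_right_cancel₀ hBne key2
  rw [mul_pow, mul_pow (1 - X), ← mul_assoc, h9, prod_comp hD hf]

theorem order1_nat (hq : ℓ ∣ Nat.card k - 1) (a : ℕ) {f D : Polynomial k} (hf : 0 < f.natDegree)
    (hD : D ≠ 0) {m : ℕ} {G : Polynomial ℤ}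
    (hG : LF (ℓ ^ a) 1 f D =
      (((1 - Polynomial.C (Nat.card k : ℤ) * Polynomial.X) ^ m * G : Polynomial ℤ) :
        PowerSeries ℤ)) :
    m + (ℓ ^ a - 1) * (∑ P ∈ facs D, ℓ ^ padicValNat ℓ P.1.natDegree + 1) ≤
      (ℓ ^ a - 1) * (1 + ∑ P ∈ facs D, ∑ R ∈ facs (P.1.comp f),
        ℓ ^ padicValNat ℓ R.1.natDegree) := by
  refine single_bound (q := (Nat.card k : ℤ)) (by rw [Int.cast_natCast]; exact card_cast hq) hG
    ((isMu_facs (facs D)).mul IsMu.oneX)
    (IsMu.oneX.mul (IsMu.prod _ fun P _ => isMu_facs (facs (P.1.comp f)))) (identity1 hq a hf hD)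

/-- the sum over the fibre is at most `n` times the contribution of the prime -/
theorem fibre_le {f : Polynomial k} (hf : 0 < f.natDegree) (P : MI k) :
    ∑ R ∈ facs (P.1.comp f), ℓ ^ padicValNat ℓ R.1.natDegree ≤
      f.natDegree * ℓ ^ padicValNat ℓ P.1.natDegree := by
  have hℓ : ℓ.Prime := hp.out
  have hdvd : ∀ R ∈ facs (P.1.comp f), P.1.natDegree ∣ R.1.natDegree := by
    intro R hR
    rw [mem_facs (comp_ne hf P)] at hR
    have h1 : R.1 ∣ Polynomial.X ^ Nat.card k ^ R.1.natDegree - Polynomial.X :=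
      (R.2.2.natDegree_dvd_iff_dvd_X_pow_card_pow_sub_X).1 dvd_rfl
    rw [P.2.2.natDegree_dvd_iff_dvd_X_pow_card_pow_sub_X]
    have hfin := finRF R
    have := Fintype.ofFinite (RF R)
    have hcard : Nat.card (RF R) = Nat.card k ^ R.1.natDegree := by
      have := fd1 R
      rw [Module.natCard_eq_pow_finrank (K := k) (V := RF R), finrank_RF]
    have h2 : Polynomial.aeval (AdjoinRoot.mk R.1 f : RF R) P.1 = 0 := by
      rw [← AdjoinRoot.aeval_eq, ← Polynomial.aeval_comp, AdjoinRoot.aeval_eq,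
        AdjoinRoot.mk_eq_zero]
      exact hR
    have h3 : minpoly k (AdjoinRoot.mk R.1 f : RF R) = P.1 :=
      (minpoly.eq_of_irreducible_of_monic P.2.2 h2 P.2.1).symm
    rw [← h3]
    apply minpoly.dvd
    rw [map_sub, map_pow, Polynomial.aeval_X, ← hcard, Nat.card_eq_fintype_card,
      FiniteField.pow_card, sub_self]
  have h1 : ∀ R ∈ facs (P.1.comp f), ℓ ^ padicValNat ℓ R.1.natDegree * P.1.natDegree ≤
      ℓ ^ padicValNat ℓ P.1.natDegree * R.1.natDegree := by
    intro R hR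
    obtain ⟨c, hc⟩ := hdvd R hR
    have hc0 : c ≠ 0 := by
      rintro rfl
      rw [mul_zero] at hc
      exact (MI.deg_pos R).ne' hc
    rw [hc, padicValNat.mul (MI.deg_pos P).ne' hc0, pow_add]
    have h2 : ℓ ^ padicValNat ℓ c ≤ c := Nat.le_of_dvd (Nat.pos_of_ne_zero hc0) pow_padicValNat_dvd
    calc ℓ ^ padicValNat ℓ P.1.natDegree * ℓ ^ padicValNat ℓ c * P.1.natDegree
        ≤ ℓ ^ padicValNat ℓ P.1.natDegree * c * P.1.natDegree :=
          Nat.mul_le_mul_right _ (Nat.mul_le_mul_left _ h2)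
      _ = ℓ ^ padicValNat ℓ P.1.natDegree * (P.1.natDegree * c) := by ring
  have h2 := Finset.sum_le_sum h1
  rw [← Finset.sum_mul, ← Finset.mul_sum] at h2
  have h3 : ∑ R ∈ facs (P.1.comp f), R.1.natDegree ≤ (P.1.comp f).natDegree := by
    have h4 : (∏ R ∈ facs (P.1.comp f), R.1) ∣ P.1.comp f := by
      refine Finset.prod_dvd_of_coprime ?_ fun R hR => (mem_facs (comp_ne hf P) R).1 hR
      intro R hR R' hR' hne
      refine (R.2.2.coprime_iff_not_dvd).2 fun h => hne ?_
      exact Subtype.ext (Polynomial.eq_of_monic_of_associated R.2.1 R'.2.1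
        (R.2.2.associated_of_dvd R'.2.2 h))
    have h5 := Polynomial.natDegree_le_of_dvd h4 (comp_ne hf P)
    rwa [Polynomial.natDegree_prod_of_monic _ _ (fun R _ => R.2.1)] at h5
  rw [Polynomial.natDegree_comp] at h3
  have h4 : (∑ R ∈ facs (P.1.comp f), ℓ ^ padicValNat ℓ R.1.natDegree) * P.1.natDegree ≤
      (f.natDegree * ℓ ^ padicValNat ℓ P.1.natDegree) * P.1.natDegree := by
    refine h2.trans ((Nat.mul_le_mul_left _ h3).trans_eq (by ring))
  exact Nat.le_of_mul_le_mul_right h4 (MI.deg_pos P)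

/-- the bound by the primes which are not inert -/
theorem order1 (hq : ℓ ∣ Nat.card k - 1) (a : ℕ) {f D : Polynomial k} (hℓ : ¬ ℓ ∣ f.natDegree)
    (hD : D ≠ 0) [DecidablePred fun P : Polynomial k => ¬ Irreducible (P.comp f)] {m : ℕ}
    {G : Polynomial ℤ}
    (hG : LF (ℓ ^ a) 1 f D =
      (((1 - Polynomial.C (Nat.card k : ℤ) * Polynomial.X) ^ m * G : Polynomial ℤ) :
        PowerSeries ℤ)) :
    m ≤ (ℓ ^ a - 1) * ((f.natDegree - 1) *
      ∑ P ∈ (primes D).filter (fun P => ¬ Irreducible (P.comp f)),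
        ℓ ^ padicValNat ℓ P.natDegree) := by
  classical
  have hf : 0 < f.natDegree := Nat.pos_of_ne_zero fun h0 => hℓ (h0 ▸ dvd_zero ℓ)
  have h := order1_nat hq a hf hD hG
  have h1 : ∑ P ∈ facs D, ∑ R ∈ facs (P.1.comp f), ℓ ^ padicValNat ℓ R.1.natDegree ≤
      ∑ P ∈ facs D, (ℓ ^ padicValNat ℓ P.1.natDegree + (f.natDegree - 1) *
        if ¬ Irreducible (P.1.comp f) then ℓ ^ padicValNat ℓ P.1.natDegree else 0) := by
    refine Finset.sum_le_sum fun P _ => ?_
    by_cases hP : Irreducible (P.1.comp f)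
    · rw [if_neg (not_not.2 hP)]
      have h2 : facs (P.1.comp f) = {⟨P.1.comp f * Polynomial.C (P.1.comp f).leadingCoeff⁻¹,
          Polynomial.monic_mul_leadingCoeff_inv hP.ne_zero, by
            have hu : IsUnit (Polynomial.C (P.1.comp f).leadingCoeff⁻¹ : Polynomial k) :=
              Polynomial.isUnit_C.2 (isUnit_iff_ne_zero.2 (inv_ne_zero
                (Polynomial.leadingCoeff_ne_zero.2 hP.ne_zero)))
            exact (associated_mul_unit_right (P.1.comp f) _ hu).irreducible hP⟩} := by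
        ext R
        rw [mem_facs hP.ne_zero, Finset.mem_singleton]
        have hu : IsUnit (Polynomial.C (P.1.comp f).leadingCoeff⁻¹ : Polynomial k) :=
          Polynomial.isUnit_C.2 (isUnit_iff_ne_zero.2 (inv_ne_zero
            (Polynomial.leadingCoeff_ne_zero.2 hP.ne_zero)))
        have hass := associated_mul_unit_right (P.1.comp f) _ hu
        constructor
        · intro h
          exact Subtype.ext (Polynomial.eq_of_monic_of_associated R.2.1
            (Polynomial.monic_mul_leadingCoeff_inv hP.ne_zero)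
            ((R.2.2.associated_of_dvd hP h).trans hass))
        · rintro rfl
          exact hass.symm.dvd
      rw [h2, Finset.sum_singleton]
      show ℓ ^ padicValNat ℓ (P.1.comp f * Polynomial.C (P.1.comp f).leadingCoeff⁻¹).natDegree ≤ _
      rw [Polynomial.natDegree_mul_leadingCoeff_inv _ hP.ne_zero, Polynomial.natDegree_comp,
        padicValNat.mul (MI.deg_pos P).ne' hf.ne', padicValNat.eq_zero_of_not_dvd hℓ, add_zero]
      exact Nat.le_add_right _ _
    · rw [if_pos hP]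
      refine (fibre_le hf P).trans_eq ?_
      obtain ⟨n, hn⟩ : ∃ n, f.natDegree = n + 1 := ⟨f.natDegree - 1, by omega⟩
      rw [hn, Nat.add_sub_cancel]
      ring
  rw [Finset.sum_add_distrib, ← Finset.mul_sum] at h1
  have h2 : ∑ P ∈ facs D, (if ¬ Irreducible (P.1.comp f) then ℓ ^ padicValNat ℓ P.1.natDegree
      else 0) = ∑ P ∈ (primes D).filter (fun P => ¬ Irreducible (P.comp f)),
        ℓ ^ padicValNat ℓ P.natDegree := by
    rw [Finset.sum_filter]
    exact sum_primes hD (fun P => if ¬ Irreducible (P.comp f) then ℓ ^ padicValNat ℓ P.natDegree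
      else 0)
  rw [h2] at h1
  have h3 := Nat.mul_le_mul_left (ℓ ^ a - 1) h1
  have h4 : (ℓ ^ a - 1) * (1 + ∑ P ∈ facs D, ∑ R ∈ facs (P.1.comp f),
      ℓ ^ padicValNat ℓ R.1.natDegree) ≤ (ℓ ^ a - 1) * (∑ P ∈ facs D,
      ℓ ^ padicValNat ℓ P.1.natDegree + 1) + (ℓ ^ a - 1) * ((f.natDegree - 1) *
      ∑ P ∈ (primes D).filter (fun P => ¬ Irreducible (P.comp f)),
        ℓ ^ padicValNat ℓ P.natDegree) := by
    rw [← Nat.mul_add]
    apply Nat.mul_le_mul_left
    omega
  omega

end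

end Pool.Agent.X261.SE
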