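import Pool.Agent.TH639.SE.Bnd

/-!
# The factors of `X ^ (ℓ ^ b) - c` over a finite field with `ℓ`-th roots of unity
-/

set_option autoImplicit false
set_option linter.unusedSectionVars false

open Polynomial

namespace Pool.Agent.X261.SE

open Pool.Agent.W313.Hyp Pool.Agent.W343.BSD Pool.Agent.TH943.HJ

theorem dvd_geom {ℓ N : ℤ} (h : ℓ ∣ N - 1) (n : ℕ) (hℓ : ℓ = n) (b : ℕ) :
    ℓ ^ b * (N - 1) ∣ N ^ n ^ b - 1 := by
  induction b with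
  | zero => simp
  | succ b ih =>
    have h1 : N ^ n ^ (b + 1) - 1 =
        (∑ i ∈ Finset.range n, (N ^ n ^ b) ^ i) * (N ^ n ^ b - 1) := by
      rw [geom_sum_mul, ← pow_mul, ← pow_succ]
    have h2 : ℓ ∣ ∑ i ∈ Finset.range n, (N ^ n ^ b) ^ i := by
      have h3 : ∀ i ∈ Finset.range n, (N ^ n ^ b) ^ i ≡ 1 [ZMOD ℓ] := by
        intro i _
        rw [← pow_mul]
        have h4 : N ≡ 1 [ZMOD ℓ] := (Int.modEq_iff_dvd.2 (by
          rw [← neg_sub, dvd_neg]; exact h))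
        simpa using h4.pow (n ^ b * i)
      have h5 : (∑ i ∈ Finset.range n, (N ^ n ^ b) ^ i) ≡ ∑ i ∈ Finset.range n, 1 [ZMOD ℓ] :=
        Int.ModEq.sum h3
      rw [Finset.sum_const, Finset.card_range, nsmul_eq_mul, mul_one, ← hℓ] at h5
      exact (Int.modEq_zero_iff_dvd.1 (h5.trans (Int.modEq_zero_iff_dvd.2 dvd_rfl)))
    rw [h1, pow_succ, mul_comm (ℓ ^ b) ℓ, mul_assoc]
    exact mul_dvd_mul h2 ih

theorem dvd_geom_nat {ℓ N : ℕ} (hN : 1 ≤ N) (h : ℓ ∣ N - 1) (b : ℕ) :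
    ∃ K, N ^ ℓ ^ b = ℓ ^ b * (N - 1) * K + 1 := by
  have h1 := dvd_geom (ℓ := ℓ) (N := N) (by
    have : ((N - 1 : ℕ) : ℤ) = (N : ℤ) - 1 := by rw [Nat.cast_sub hN, Nat.cast_one]
    rw [← this]
    exact_mod_cast h) ℓ rfl b
  have h2 : 1 ≤ N ^ ℓ ^ b := Nat.one_le_pow _ _ hN
  have h3 : ((ℓ ^ b * (N - 1) : ℕ) : ℤ) ∣ ((N ^ ℓ ^ b - 1 : ℕ) : ℤ) := by
    rw [Nat.cast_sub h2, Nat.cast_mul, Nat.cast_sub hN]
    push_cast
    exact h1
  obtain ⟨K, hK⟩ := Int.natCast_dvd_natCast.1 h3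
  exact ⟨K, by rw [← hK, Nat.sub_add_cancel h2]⟩

section fin

variable {E : Type} [Field E] [Finite E] {ℓ : ℕ}

theorem ell_ne (hℓ : ℓ.Prime) (h : ℓ ∣ Nat.card E - 1) (b : ℕ) : ((ℓ ^ b : ℕ) : E) ≠ 0 := by
  have := Fintype.ofFinite E
  obtain ⟨p, hp⟩ := CharP.exists E
  have hpp : p.Prime := (CharP.char_is_prime_or_zero E p).resolve_right (CharP.char_ne_zero_of_finite E p)
  rw [Nat.cast_pow]
  apply pow_ne_zero
  intro h0
  have h1 : p ∣ ℓ := (CharP.cast_eq_zero_iff E p ℓ).1 h0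
  have h2 : p = ℓ := (Nat.prime_dvd_prime_iff_eq hpp hℓ).1 h1
  subst h2
  have h3 : p ∣ Nat.card E := by
    have h4 : ((Nat.card E : ℕ) : E) = 0 := by
      rw [Nat.card_eq_fintype_card]
      exact FiniteField.cast_card_eq_zero E
    exact (CharP.cast_eq_zero_iff E p _).1 h4
  have h5 : 1 ≤ Nat.card E := Finite.card_pos
  have h6 := (Nat.dvd_sub_iff_right h5 h3).1 h
  exact hpp.one_lt.ne' (Nat.dvd_one.1 h6)

theorem deg_dvd (h : ℓ ∣ Nat.card E - 1) (b : ℕ) {c : E} (hc : c ≠ 0) (S : MI E)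
    (hS : S.1 ∣ X ^ ℓ ^ b - C c) : S.1.natDegree ∣ ℓ ^ b := by
  have hpos : 1 ≤ Nat.card E := Finite.card_pos
  obtain ⟨K, hK⟩ := dvd_geom_nat hpos h b
  rw [S.2.2.natDegree_dvd_iff_dvd_X_pow_card_pow_sub_X]
  have hfact : Fact (Irreducible S.1) := ⟨S.2.2⟩
  rw [← AdjoinRoot.mk_eq_zero] at hS ⊢
  rw [map_sub, map_pow, AdjoinRoot.mk_X, AdjoinRoot.mk_C, sub_eq_zero] at hS
  rw [map_sub, map_pow, AdjoinRoot.mk_X, sub_eq_zero, hK, pow_succ, pow_mul, pow_mul, hS,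
    ← map_pow]
  have h1 : c ^ (Nat.card E - 1) = 1 := by
    have := Fintype.ofFinite E
    rw [Nat.card_eq_fintype_card]
    exact FiniteField.pow_card_sub_one_eq_one c hc
  rw [h1, map_one, one_pow, one_mul]

theorem sum_deg (hℓ : ℓ.Prime) (h : ℓ ∣ Nat.card E - 1) (b : ℕ) {c : E} (hc : c ≠ 0) :
    ∑ S ∈ facs (X ^ ℓ ^ b - C c : E[X]), S.1.natDegree = ℓ ^ b := by
  have hpos : 0 < ℓ ^ b := pow_pos hℓ.pos b
  rw [sum_facs (monic_X_pow_sub_C c hpos.ne')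
    (separable_X_pow_sub_C c (ell_ne hℓ h b) hc).squarefree, natDegree_X_pow_sub_C]

theorem prod_pow [Fact ℓ.Prime] (h : ℓ ∣ Nat.card E - 1) (b : ℕ) {c : E} (hc : c ≠ 0) (d : ℕ) :
    ∏ S ∈ facs (X ^ ℓ ^ b - C c : E[X]), (1 - PowerSeries.X ^ (d * S.1.natDegree) :
      PowerSeries (ZMod ℓ)) = (1 - PowerSeries.X ^ d) ^ ℓ ^ b := by
  have hℓ : ℓ.Prime := Fact.out
  have hne : (X ^ ℓ ^ b - C c : E[X]) ≠ 0 := (monic_X_pow_sub_C c (pow_pos hℓ.pos b).ne').ne_zero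
  have hchar := Pool.Agent.TH639.SE.charP_series (ℓ := ℓ)
  have h1 : ∀ S ∈ facs (X ^ ℓ ^ b - C c : E[X]), (1 - PowerSeries.X ^ (d * S.1.natDegree) :
      PowerSeries (ZMod ℓ)) = (1 - PowerSeries.X ^ d) ^ S.1.natDegree := by
    intro S hS
    obtain ⟨i, _, hi⟩ := (Nat.dvd_prime_pow hℓ).1 (deg_dvd h b hc S ((mem_facs hne S).1 hS))
    rw [hi, sub_pow_char_pow, one_pow, ← pow_mul]
  rw [Finset.prod_congr rfl h1, Finset.prod_pow_eq_pow_sum, sum_deg hℓ h b hc]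

/-- the factors of a power of `X` -/
theorem facs_X_pow {n : ℕ} (hn : 0 < n) :
    facs (X ^ n : E[X]) = {⟨X, monic_X, irreducible_X⟩} := by
  ext S
  rw [mem_facs (pow_ne_zero n X_ne_zero), Finset.mem_singleton]
  constructor
  · intro h
    exact eq_of_dvd_MI (Q := ⟨X, monic_X, irreducible_X⟩) (S.2.2.prime.dvd_of_dvd_pow h)
  · rintro rfl
    exact dvd_pow_self X hn.ne'

end fin

end Pool.Agent.X261.SE
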